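import Pool.Agent.H598.AS.Manin

/-!
# Manin's conjecture for diagonal hypersurfaces over `F(t)`

Let `F` be a finite field with `q` elements and `K = F(t)`. For non-zero polynomials `a i` let `X`
be the hypersurface `∑ i, a i * x i ^ k = 0` in the projective space of dimension `s - 1` over `K`.
The height of a point of the projective space, with respect to `O(1)`, is `q ^ P`, where `P` is the
maximal degree of the entries of a tuple of polynomials without common factor which represents it.
-/

namespace Pool.Agent.Results.MP_1acd66_nt.DiagonalHypersurfaces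

open Polynomial Filter Topology

variable {F : Type*} [Field F]

/-- The entries have no common factor. -/
def Primitive {s : ℕ} (x : Fin s → F[X]) : Prop := ∀ g : F[X], (∀ i, g ∣ x i) → IsUnit g

/-- The maximal degree of the entries is `P` (and `x` is not zero). -/
def MaxDeg {s : ℕ} (P : ℕ) (x : Fin s → F[X]) : Prop :=
  (∀ i, (x i).natDegree ≤ P) ∧ ∃ i, (x i).coeff P ≠ 0

/-- The tuple of polynomials as a tuple of rational functions. -/
noncomputable def toK {s : ℕ} (x : Fin s → F[X]) : Fin s → RatFunc F :=
  fun i => algebraMap F[X] (RatFunc F) (x i)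

/-- The height of the projective point `p` is `q ^ P`. -/
def HasHeight {s : ℕ} (P : ℕ) (p : Projectivization (RatFunc F) (Fin s → RatFunc F)) : Prop :=
  ∃ x : Fin s → F[X], Primitive x ∧ MaxDeg P x ∧
    ∃ h : toK x ≠ 0, p = Projectivization.mk _ (toK x) h

/-- The projective point `p` lies on the diagonal hypersurface `X`. -/
def OnX {s : ℕ} (k : ℕ) (a : Fin s → F[X])
    (p : Projectivization (RatFunc F) (Fin s → RatFunc F)) : Prop :=
  ∑ i, algebraMap F[X] (RatFunc F) (a i) * p.rep i ^ k = 0

/-- The set of the `K`-rational points of `X` of height `q ^ P`. -/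
def Pts (k : ℕ) {s : ℕ} (a : Fin s → F[X]) (P : ℕ) :
    Set (Projectivization (RatFunc F) (Fin s → RatFunc F)) :=
  {p | OnX k a p ∧ HasHeight P p}

/-- The set of the `K`-rational points of `X` of height at most `q ^ P`. -/
def PtsLe (k : ℕ) {s : ℕ} (a : Fin s → F[X]) (P : ℕ) :
    Set (Projectivization (RatFunc F) (Fin s → RatFunc F)) :=
  {p | OnX k a p ∧ ∃ j, j ≤ P ∧ HasHeight j p}

/-- (1) Every projective point over `K` has exactly one height `q ^ P`.

(2) Let `k ≥ 2`, let `F` be a finite field of characteristic larger than `k` with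
`q ≥ (8k) ^ (k 2 ^ k)` elements, let `s ≥ 2k + 1` and let `a i` be arbitrary non-zero polynomials.
There are real numbers `S > 0` and `σ > 0`, depending on `F`, `k`, `s` and `a`, such that:

* `S` is the product of the local densities at the finite places: it is the limit of the
  densities modulo `G` as `G` becomes more and more divisible;
* `σ` is the local density at the infinite place: for all large `R` the number of `x` with maximal
  degree `R` for which `∑ a i * x i ^ k` has degree less than `(k - 1) R + A` is equal to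
  `σ q ^ ((s - 1) R + A)`, where `A` is any bound for the degrees of the `a i`;
* as `P` tends to infinity, the number of `K`-rational points of `X` of height exactly `q ^ P` is
  asymptotic to `c q ^ ((s - k) P)`, where
  `c = σ S (1 - q ^ (1 - (s - k))) / (q - 1)`;
* as `P` tends to infinity, the number of all `K`-rational points of `X` of height at most `q ^ P`
  is asymptotic to `c (1 - q ^ (-(s - k)))⁻¹ q ^ ((s - k) P)`.

Here `q ^ ((s - k) P)` is the bound for the anticanonical height. -/
theorem result :
    (∀ (F : Type) [Field F] (s : ℕ) (p : Projectivization (RatFunc F) (Fin s → RatFunc F)),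
      ∃! P, HasHeight P p) ∧
    (∀ (k : ℕ), 2 ≤ k → ∀ (F : Type) [Field F] [Fintype F], k < ringChar F →
      (8 * k) ^ (k * 2 ^ k) ≤ Fintype.card F → ∀ s : ℕ, 2 * k + 1 ≤ s →
      ∀ a : Fin s → F[X], (∀ i, a i ≠ 0) →
      ∃ S σ : ℝ, 0 < S ∧ 0 < σ ∧
        (∀ ε : ℝ, 0 < ε → ∃ H : F[X], H.Monic ∧ ∀ G : F[X], G.Monic → H ∣ G →
          |(Nat.card {z : Fin s → F[X] // (∀ i, (z i).degree < G.degree) ∧
              G ∣ ∑ i, a i * z i ^ k} : ℝ)
            / (Fintype.card F : ℝ) ^ ((s - 1) * G.natDegree) - S| ≤ ε) ∧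
        (∀ A : ℕ, (∀ i, (a i).natDegree ≤ A) → ∃ R₀ : ℕ, ∀ R, R₀ ≤ R →
          (Nat.card {x : Fin s → F[X] // MaxDeg R x ∧
              (∑ i, a i * x i ^ k).degree < (((k - 1) * R + A : ℕ) : WithBot ℕ)} : ℝ)
            = σ * (Fintype.card F : ℝ) ^ ((s - 1) * R + A)) ∧
        Tendsto (fun P => ((Pts k a P).ncard : ℝ) / (Fintype.card F : ℝ) ^ ((s - k) * P)) atTop
          (𝓝 (σ * S * (1 - (Fintype.card F : ℝ) / (Fintype.card F : ℝ) ^ (s - k))
            / (Fintype.card F - 1))) ∧
        Tendsto (fun P => ((PtsLe k a P).ncard : ℝ) / (Fintype.card F : ℝ) ^ ((s - k) * P)) atTop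
          (𝓝 (σ * S * (1 - (Fintype.card F : ℝ) / (Fintype.card F : ℝ) ^ (s - k))
            / (Fintype.card F - 1) * (1 - ((Fintype.card F : ℝ) ^ (s - k))⁻¹)⁻¹))) := by
  refine ⟨?_, ?_⟩
  · intro F _ s p
    obtain ⟨P, hP⟩ := Pool.Agent.H598.AS.exists_height p
    exact ⟨P, hP, fun P' hP' => Pool.Agent.H598.AS.height_uniq hP' hP⟩
  · intro k hk F _ _ hchar hq s hs a ha
    have hch : ∀ i : ℕ, 1 ≤ i → i ≤ k → ((i : ℕ) : F) ≠ 0 := by
      intro i hi hik h0
      have h1 : ringChar F ∣ i := ringChar.dvd h0
      have h2 := Nat.le_of_dvd (by omega) h1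
      omega
    exact Pool.Agent.H598.AS.manin hk hch hq hs a ha

end Pool.Agent.Results.MP_1acd66_nt.DiagonalHypersurfaces
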